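import Mathlib
import Pool.Agent.U723.OC.Stm

/-!
Project OC, package CRS: the number of crossing points of an arrangement of orthogonal circles.
-/

set_option autoImplicit false

open Metric Set Pool.Agent.U723.OC

namespace Pool.Agent.U742.OC

/-- squares of the distances -/
theorem sq_dist (A : Circ) {z : ℂ} (h : z ∈ A.pts) :
    (A.c - z).re ^ 2 + (A.c - z).im ^ 2 = A.r ^ 2 := by
  have h1 : dist z A.c = A.r := h
  rw [dist_comm, dist_eq_norm] at h1
  rw [← h1, ← Complex.normSq_eq_norm_sq, Complex.normSq_apply]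
  ring

theorem orth_sq {A B : Circ} (h : Orth A B) :
    (A.c - B.c).re ^ 2 + (A.c - B.c).im ^ 2 = A.r ^ 2 + B.r ^ 2 := by
  unfold Orth at h
  rw [← h, dist_eq_norm, ← Complex.normSq_eq_norm_sq, Complex.normSq_apply]
  ring

theorem orth_symm {A B : Circ} (h : Orth A B) : Orth B A := by
  unfold Orth at h ⊢
  rw [dist_comm, h]
  ring

theorem orth_ne {A B : Circ} (h : Orth A B) : A ≠ B := by
  rintro rfl
  unfold Orth at h
  rw [dist_self] at h
  have := A.pos
  nlinarith

/-- the squares of the two vectors -/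
theorem key {A B : Circ} (h : Orth A B) {z : ℂ} (hA : z ∈ A.pts) (hB : z ∈ B.pts) :
    ((A.r : ℂ) * (B.c - z)) ^ 2 + ((B.r : ℂ) * (A.c - z)) ^ 2 = 0 := by
  have h1 := sq_dist A hA
  have h2 := sq_dist B hB
  have h3 := orth_sq h
  have e : A.c - B.c = (A.c - z) - (B.c - z) := by ring
  rw [e] at h3
  set α := A.c - z
  set β := B.c - z
  simp only [Complex.sub_re, Complex.sub_im] at h3
  have h4 : α.re * β.re + α.im * β.im = 0 := by nlinarith
  apply Complex.ext
  · simp only [pow_two, Complex.add_re, Complex.mul_re, Complex.mul_im, Complex.ofReal_re,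
      Complex.ofReal_im, Complex.zero_re]
    linear_combination (-(β.re ^ 2 - β.im ^ 2)) * h1 - (α.re ^ 2 - α.im ^ 2) * h2 +
      2 * (α.re * β.re - α.im * β.im) * h4
  · simp only [pow_two, Complex.add_im, Complex.mul_re, Complex.mul_im, Complex.ofReal_re,
      Complex.ofReal_im, Complex.zero_im]
    linear_combination (-2 * β.re * β.im) * h1 - 2 * α.re * α.im * h2 +
      2 * (α.re * β.im + α.im * β.re) * h4

/-- `z` is the crossing point of the ordered pair `(A, B)` -/
def Rl (A B : Circ) (z : ℂ) : Prop :=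
  z ∈ A.pts ∧ z ∈ B.pts ∧ (A.r : ℂ) * (B.c - z) = B.r * Complex.I * (A.c - z)

theorem rl_or {A B : Circ} (h : Orth A B) {z : ℂ} (hA : z ∈ A.pts) (hB : z ∈ B.pts) :
    Rl A B z ∨ Rl B A z := by
  have h1 := key h hA hB
  have h2 : ((A.r : ℂ) * (B.c - z) - B.r * Complex.I * (A.c - z)) *
      ((A.r : ℂ) * (B.c - z) + B.r * Complex.I * (A.c - z)) = 0 := by
    linear_combination h1 - (B.r * (A.c - z)) ^ 2 * Complex.I_sq
  rcases mul_eq_zero.1 h2 with h3 | h3
  · exact Or.inl ⟨hA, hB, sub_eq_zero.1 h3⟩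
  · refine Or.inr ⟨hB, hA, ?_⟩
    linear_combination (-Complex.I) * h3 + B.r * (A.c - z) * Complex.I_sq

theorem ne_zero_of_mem {A : Circ} {z : ℂ} (hA : z ∈ A.pts) : A.c - z ≠ 0 := by
  intro h0
  have h1 := sq_dist A hA
  rw [h0] at h1
  have := A.pos
  simp at h1
  nlinarith

theorem rne (A : Circ) : (A.r : ℂ) ≠ 0 := by exact_mod_cast A.pos.ne'

theorem rl_not {A B : Circ} {z : ℂ} (h : Rl A B z) (h' : Rl B A z) : False := by
  have h1 : (B.r : ℂ) * (A.c - z) = 0 := by
    linear_combination (1 / 2) * h'.2.2 + (1 / 2) * Complex.I * h.2.2 +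
      (1 / 2) * B.r * (A.c - z) * Complex.I_sq
  exact ne_zero_of_mem h.1 ((mul_eq_zero.1 h1).resolve_left (rne B))

/-- three circles have no common point -/
theorem three {A B C : Circ} (h1 : Orth A B) (h2 : Orth A C) (h3 : Orth B C) {z : ℂ}
    (hA : z ∈ A.pts) (hB : z ∈ B.pts) (hC : z ∈ C.pts) : False := by
  have k1 := key h1 hA hB
  have k2 := key h2 hA hC
  have k3 := key h3 hB hC
  have h4 : 2 * ((B.r : ℂ) * C.r * (A.c - z)) ^ 2 = 0 := by
    linear_combination C.r ^ 2 * k1 + B.r ^ 2 * k2 - A.r ^ 2 * k3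
  have h5 := (mul_eq_zero.1 h4).resolve_left two_ne_zero
  have h6 := (pow_eq_zero_iff (two_ne_zero)).1 h5
  exact mul_ne_zero (mul_ne_zero (rne B) (rne C)) (ne_zero_of_mem hA) h6

/-- the crossing point of an ordered pair -/
noncomputable def pt (A B : Circ) : ℂ :=
  (A.r * B.c - B.r * Complex.I * A.c) / (A.r - B.r * Complex.I)

theorem den_ne (A B : Circ) : (A.r : ℂ) - B.r * Complex.I ≠ 0 := by
  intro h0
  have h1 := congrArg Complex.re h0
  simp at h1
  exact A.pos.ne' h1

theorem pt_unique {A B : Circ} {z : ℂ} (h : Rl A B z) : z = pt A B := by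
  unfold pt
  rw [eq_div_iff (den_ne A B)]
  linear_combination -h.2.2

theorem pt_rl {A B : Circ} (h : Orth A B) : Rl A B (pt A B) := by
  have hd := den_ne A B
  have h0 : (A.r : ℂ) * (B.c - pt A B) = B.r * Complex.I * (A.c - pt A B) := by
    unfold pt
    field_simp
    ring
  have hz : pt A B * ((A.r : ℂ) - B.r * Complex.I) = A.r * B.c - B.r * Complex.I * A.c := by
    unfold pt
    rw [div_mul_cancel₀ _ hd]
  have hp : (0 : ℝ) < A.r ^ 2 + B.r ^ 2 := by
    have := A.pos
    positivity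
  have hn : ‖(A.r : ℂ) - B.r * Complex.I‖ ^ 2 = A.r ^ 2 + B.r ^ 2 := by
    rw [← Complex.normSq_eq_norm_sq, Complex.normSq_apply]
    simp
    ring
  have ho : ‖A.c - B.c‖ ^ 2 = A.r ^ 2 + B.r ^ 2 := by
    unfold Orth at h
    rw [← dist_eq_norm, h]
  have hA : (A.c - pt A B) * ((A.r : ℂ) - B.r * Complex.I) = A.r * (A.c - B.c) := by
    linear_combination -hz
  have hB : (B.c - pt A B) * ((A.r : ℂ) - B.r * Complex.I) =
      B.r * Complex.I * (A.c - B.c) := by
    linear_combination -hz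
  have hAn : ‖A.c - pt A B‖ = A.r := by
    have h1 := congrArg (fun x => ‖x‖ ^ 2) hA
    simp only [norm_mul, mul_pow] at h1
    rw [hn, ho, Complex.norm_real, Real.norm_eq_abs, sq_abs] at h1
    have h2 := mul_right_cancel₀ hp.ne' h1
    exact (pow_left_inj₀ (norm_nonneg _) A.pos.le two_ne_zero).1 h2
  have hBn : ‖B.c - pt A B‖ = B.r := by
    have h1 := congrArg (fun x => ‖x‖ ^ 2) hB
    simp only [norm_mul, mul_pow, Complex.norm_I, mul_one] at h1
    rw [hn, ho, Complex.norm_real, Real.norm_eq_abs, sq_abs] at h1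
    have h2 := mul_right_cancel₀ hp.ne' h1
    exact (pow_left_inj₀ (norm_nonneg _) B.pos.le two_ne_zero).1 h2
  refine ⟨?_, ?_, h0⟩
  · change dist (pt A B) A.c = A.r
    rw [dist_comm, dist_eq_norm, hAn]
  · change dist (pt A B) B.c = B.r
    rw [dist_comm, dist_eq_norm, hBn]

/-- circles through a common point are orthogonal -/
theorem orth_of_mem {S : Finset Circ} (hS : IsArr S) {A B : Circ} (hA : A ∈ S) (hB : B ∈ S)
    (hAB : A ≠ B) {z : ℂ} (hzA : z ∈ A.pts) (hzB : z ∈ B.pts) : Orth A B := by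
  rcases hS A hA B hB hAB with h | h
  · exact h
  · exact absurd hzB (Set.disjoint_left.1 h hzA)

theorem t_CRS : S_CRS := by
  classical
  intro S hS
  set PS : Finset (Circ × Circ) := (S ×ˢ S).filter (fun x => Orth x.1 x.2) with hPS
  have hmem : ∀ A B, (A, B) ∈ PS ↔ A ∈ S ∧ B ∈ S ∧ Orth A B := by
    intro A B
    simp [hPS, and_assoc]
  have himg : cross S = ((PS.image fun x => pt x.1 x.2 : Finset ℂ) : Set ℂ) := by
    ext z
    constructor
    · rintro ⟨A, hA, B, hB, hAB, hzA, hzB⟩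
      have ho := orth_of_mem hS hA hB hAB hzA hzB
      rw [Finset.mem_coe, Finset.mem_image]
      rcases rl_or ho hzA hzB with h | h
      · exact ⟨(A, B), (hmem A B).2 ⟨hA, hB, ho⟩, (pt_unique h).symm⟩
      · exact ⟨(B, A), (hmem B A).2 ⟨hB, hA, orth_symm ho⟩, (pt_unique h).symm⟩
    · intro hz
      rw [Finset.mem_coe, Finset.mem_image] at hz
      obtain ⟨⟨A, B⟩, hAB, rfl⟩ := hz
      obtain ⟨hA, hB, ho⟩ := (hmem A B).1 hAB
      obtain ⟨h1, h2, -⟩ := pt_rl ho
      exact ⟨A, hA, B, hB, orth_ne ho, h1, h2⟩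
  have hinj : Set.InjOn (fun x : Circ × Circ => pt x.1 x.2) (PS : Set (Circ × Circ)) := by
    rintro ⟨A, B⟩ hAB ⟨A', B'⟩ hAB' heq
    simp only at heq
    obtain ⟨hA, hB, ho⟩ := (hmem A B).1 hAB
    obtain ⟨hA', hB', ho'⟩ := (hmem A' B').1 hAB'
    have h1 := pt_rl ho
    have h2 := pt_rl ho'
    rw [← heq] at h2
    set z := pt A B
    have hthree : ∀ C ∈ S, z ∈ C.pts → C = A ∨ C = B := by
      intro C hC hzC
      by_contra hcon
      push Not at hcon
      exact three ho (orth_of_mem hS hA hC (Ne.symm hcon.1) h1.1 hzC)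
        (orth_of_mem hS hB hC (Ne.symm hcon.2) h1.2.1 hzC) h1.1 h1.2.1 hzC
    rcases hthree A' hA' h2.1 with h3 | h3
    · rcases hthree B' hB' h2.2.1 with h4 | h4
      · exact absurd (h3.trans h4.symm) (orth_ne ho')
      · rw [h3, h4]
    · rcases hthree B' hB' h2.2.1 with h4 | h4
      · rw [h3, h4] at h2
        exact (rl_not h1 h2).elim
      · exact absurd (h3.trans h4.symm) (orth_ne ho')
  refine ⟨?_, ?_⟩
  · rw [himg]
    exact Finset.finite_toSet _
  · rw [himg, Set.ncard_coe_finset, Finset.card_image_of_injOn hinj]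
    unfold pairs
    rw [hPS]

end Pool.Agent.U742.OC
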